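import Pool.Agent.H59.L.T374d34.N483.KM.Stm1
import Pool.Agent.H59.L.S8.R755.KF.P1
import Pool.Agent.H59.L.S8.R755.KF.P2
import Pool.Agent.H59.L.S8.R755.KF.L2

/-!
# KM/PST: posterior means in the Gaussian channel

Project KM (helper483); this file by helper692.
-/

set_option autoImplicit false

namespace Pool.Agent.N692.KM

open MeasureTheory Set Filter Topology
open scoped ENNReal InnerProductSpace
open Pool.Agent.H888R2.KT (gs gc)
open Pool.Agent.R754.KG (E un sl Rv un_prob)
open Pool.Agent.R755.KF (BL PB PW zn ey rep zn_ok)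
open Pool.Agent.R755.KF.P2aux (Kn Kd Kn_pos Kn_le_one Kn_cont Kd_cont Kd_norm Kn_deriv Kn_int
  Kd_int zn_pos)
open Pool.Agent.N483.KM

variable {k : ℕ} {h B : ℝ} {ν : Measure (E k)}

/-- the numerator of the posterior mean -/
noncomputable def nm (h : ℝ) (ν : Measure (E k)) (u : E k → ℝ) (y : E k) : ℝ :=
  ∫ x, u x * Kn h x y ∂ν

theorem po_eq (u : E k → ℝ) (y : E k) : po h ν u y = nm h ν u y / zn h ν y := rfl

theorem zn_eq (y : E k) : zn h ν y = ∫ x, Kn h x y ∂ν := rfl

theorem int_cont (hν : PB B ν) {g : E k → ℝ} (hg : Continuous g) : Integrable g ν := by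
  have := hν.prob
  obtain ⟨C, hC⟩ := (isCompact_closedBall (0 : E k) B).exists_bound_of_continuousOn hg.continuousOn
  refine Integrable.of_bound hg.aestronglyMeasurable C ?_
  filter_upwards [hν.bdd] with x hx
  exact hC x (by simpa using hx)

theorem Kn_cont1 (h : ℝ) (y : E k) : Continuous (fun x => Kn h x y) := by
  unfold Kn
  fun_prop

theorem Kd_cont1 (h : ℝ) (y : E k) : Continuous (fun x => Kd h x y) := by
  unfold Kd
  exact ((Kn_cont1 h y).div_const h).smul
    ((innerSL ℝ).continuous.comp (continuous_id.sub continuous_const))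

theorem int_mul (hν : PB B ν) {g : E k → ℝ} (hg : Continuous g) (y : E k) :
    Integrable (fun x => g x * Kn h x y) ν := int_cont hν (hg.mul (Kn_cont1 h y))

/-! ### covariances -/

theorem cov_id (hν : PB B ν) {f g : E k → ℝ} (hf : Continuous f) (hg : Continuous g) (a b : ℝ)
    (y : E k) : ∫ x, (f x - a) * (g x - b) * Kn h x y ∂ν =
      nm h ν (fun x => f x * g x) y - a * nm h ν g y - b * nm h ν f y + a * b * zn h ν y := by
  have i1 : Integrable (fun x => f x * g x * Kn h x y) ν := int_mul hν (hf.mul hg) y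
  have i2 : Integrable (fun x => a * (g x * Kn h x y)) ν := (int_mul hν hg y).const_mul a
  have i3 : Integrable (fun x => b * (f x * Kn h x y)) ν := (int_mul hν hf y).const_mul b
  have i4 : Integrable (fun x => a * b * Kn h x y) ν := (int_cont hν (Kn_cont1 h y)).const_mul _
  have e : (fun x => (f x - a) * (g x - b) * Kn h x y) = fun x =>
      f x * g x * Kn h x y - a * (g x * Kn h x y) - b * (f x * Kn h x y) +
        a * b * Kn h x y := by
    funext x
    ring
  have i12 : Integrable (fun x => f x * g x * Kn h x y - a * (g x * Kn h x y)) ν := i1.sub i2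
  have i123 : Integrable (fun x => f x * g x * Kn h x y - a * (g x * Kn h x y) -
    b * (f x * Kn h x y)) ν := i12.sub i3
  rw [e, integral_add i123 i4, integral_sub i12 i3, integral_sub i1 i2, integral_const_mul,
    integral_const_mul, integral_const_mul, ← zn_eq]
  rfl

/-- the variance under the posterior law -/
noncomputable def vr (h : ℝ) (ν : Measure (E k)) (f : E k → ℝ) (y : E k) : ℝ :=
  po h ν (fun x => f x ^ 2) y - po h ν f y ^ 2

/-- the covariance under the posterior law -/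
noncomputable def cv (h : ℝ) (ν : Measure (E k)) (f g : E k → ℝ) (y : E k) : ℝ :=
  po h ν (fun x => f x * g x) y - po h ν f y * po h ν g y

theorem cv_int (hν : PB B ν) (hh : 0 < h) {f g : E k → ℝ} (hf : Continuous f) (hg : Continuous g)
    (y : E k) : ∫ x, (f x - po h ν f y) * (g x - po h ν g y) * Kn h x y ∂ν =
      cv h ν f g y * zn h ν y := by
  have := hν.prob
  have hz : zn h ν y ≠ 0 := (zn_pos hh y).ne'
  rw [cov_id hν hf hg]
  unfold cv
  rw [po_eq, po_eq, po_eq]
  field_simp
  ring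

theorem vr_eq (f : E k → ℝ) (y : E k) : vr h ν f y = cv h ν f f y := by
  unfold vr cv
  have : (fun x => f x ^ 2) = fun x => f x * f x := by
    funext x
    ring
  rw [this]
  ring

theorem vr_nonneg (hν : PB B ν) (hh : 0 < h) {f : E k → ℝ} (hf : Continuous f) (y : E k) :
    0 ≤ vr h ν f y := by
  have := hν.prob
  have h1 := cv_int hν hh hf hf y
  have h2 : 0 ≤ ∫ x, (f x - po h ν f y) * (f x - po h ν f y) * Kn h x y ∂ν :=
    integral_nonneg fun x => mul_nonneg (mul_self_nonneg _) (Kn_pos h x y).le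
  rw [h1] at h2
  rw [vr_eq]
  exact nonneg_of_mul_nonneg_left h2 (zn_pos hh y)

theorem vr_le (hν : PB B ν) (hh : 0 < h) {f : E k → ℝ} (hf : Continuous f) (c : ℝ) (y : E k) :
    vr h ν f y * zn h ν y ≤ ∫ x, (f x - c) ^ 2 * Kn h x y ∂ν := by
  have := hν.prob
  have hz : 0 < zn h ν y := zn_pos hh y
  have e : (fun x => (f x - c) ^ 2 * Kn h x y) = fun x => (f x - c) * (f x - c) * Kn h x y := by
    funext x
    ring
  rw [e, cov_id hν hf hf, vr_eq]
  unfold cv
  rw [po_eq, po_eq]
  have h1 : nm h ν (fun x => f x * f x) y - c * nm h ν f y - c * nm h ν f y +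
      c * c * zn h ν y - (nm h ν (fun x => f x * f x) y / zn h ν y -
        nm h ν f y / zn h ν y * (nm h ν f y / zn h ν y)) * zn h ν y =
      (nm h ν f y / zn h ν y - c) ^ 2 * zn h ν y := by
    field_simp
    ring
  have h2 : 0 ≤ (nm h ν f y / zn h ν y - c) ^ 2 * zn h ν y := by positivity
  linarith

/-- Cauchy-Schwarz inequality -/
theorem cs (hν : PB B ν) (hh : 0 < h) {f g : E k → ℝ} (hf : Continuous f) (hg : Continuous g)
    (y : E k) : cv h ν f g y ^ 2 ≤ vr h ν f y * vr h ν g y := by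
  have := hν.prob
  have hz : 0 < zn h ν y := zn_pos hh y
  have hq : ∀ t : ℝ, 0 ≤ vr h ν g y * (t * t) + 2 * cv h ν f g y * t + vr h ν f y := by
    intro t
    have hfc : Continuous fun x => f x - po h ν f y := hf.sub continuous_const
    have hgc : Continuous fun x => g x - po h ν g y := hg.sub continuous_const
    have h0 : 0 ≤ ∫ x, ((f x - po h ν f y) + t * (g x - po h ν g y)) ^ 2 * Kn h x y ∂ν :=
      integral_nonneg fun x => mul_nonneg (sq_nonneg _) (Kn_pos h x y).le
    have i1 : Integrable (fun x => (f x - po h ν f y) * (f x - po h ν f y) * Kn h x y) ν :=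
      int_mul hν (hfc.mul hfc) y
    have i2 : Integrable (fun x => 2 * t * ((f x - po h ν f y) * (g x - po h ν g y) *
      Kn h x y)) ν := (int_mul hν (hfc.mul hgc) y).const_mul _
    have i3 : Integrable (fun x => t * t * ((g x - po h ν g y) * (g x - po h ν g y) *
      Kn h x y)) ν := (int_mul hν (hgc.mul hgc) y).const_mul _
    have e : (fun x => ((f x - po h ν f y) + t * (g x - po h ν g y)) ^ 2 * Kn h x y) = fun x =>
        (f x - po h ν f y) * (f x - po h ν f y) * Kn h x y +
          2 * t * ((f x - po h ν f y) * (g x - po h ν g y) * Kn h x y) +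
          t * t * ((g x - po h ν g y) * (g x - po h ν g y) * Kn h x y) := by
      funext x
      ring
    have i12 : Integrable (fun x => (f x - po h ν f y) * (f x - po h ν f y) * Kn h x y +
          2 * t * ((f x - po h ν f y) * (g x - po h ν g y) * Kn h x y)) ν := i1.add i2
    rw [e, integral_add i12 i3, integral_add i1 i2, integral_const_mul, integral_const_mul,
      cv_int hν hh hf hf, cv_int hν hh hf hg, cv_int hν hh hg hg, ← vr_eq, ← vr_eq] at h0
    have h1 : vr h ν f y * zn h ν y + 2 * t * (cv h ν f g y * zn h ν y) +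
        t * t * (vr h ν g y * zn h ν y) =
        (vr h ν g y * (t * t) + 2 * cv h ν f g y * t + vr h ν f y) * zn h ν y := by ring
    rw [h1] at h0
    exact nonneg_of_mul_nonneg_left h0 hz
  have hd := discrim_le_zero hq
  unfold discrim at hd
  nlinarith

/-! ### derivatives -/

theorem nm_deriv (hν : PB B ν) (hh : 0 < h) {u : E k → ℝ} (hu : Continuous u) (y : E k) :
    HasFDerivAt (nm h ν u) (∫ x, u x • Kd h x y ∂ν) y := by
  have := hν.prob
  refine hasFDerivAt_integral_of_dominated_of_fderiv_le (F := fun y x => u x * Kn h x y)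
    (F' := fun y x => u x • Kd h x y) (bound := fun x => ‖u x‖ * ((1 + h) / h)) univ_mem ?_
    (int_mul hν hu y) ?_ ?_ ?_ ?_
  · exact Filter.Eventually.of_forall fun z => (int_mul hν hu z).aestronglyMeasurable
  · exact (hu.smul (Kd_cont1 h y)).aestronglyMeasurable
  · refine Filter.Eventually.of_forall fun x z _ => ?_
    rw [norm_smul]
    exact mul_le_mul_of_nonneg_left (Kd_norm hh x z) (norm_nonneg _)
  · exact (int_cont hν hu).norm.mul_const _
  · exact Filter.Eventually.of_forall fun x z _ => (Kn_deriv hh x z).const_mul (u x)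

theorem nm_c1 (hν : PB B ν) (hh : 0 < h) {u : E k → ℝ} (hu : Continuous u) :
    ContDiff ℝ 1 (nm h ν u) := by
  have := hν.prob
  rw [contDiff_one_iff_fderiv]
  refine ⟨fun y => (nm_deriv hν hh hu y).differentiableAt, ?_⟩
  have : fderiv ℝ (nm h ν u) = fun y => ∫ x, u x • Kd h x y ∂ν := by
    funext y
    exact (nm_deriv hν hh hu y).fderiv
  rw [this]
  have hc : ∀ x : E k, Continuous fun y => u x • Kd h x y := fun x => by
    have h1 : Continuous fun y : E k => ((x, y) : E k × E k) := by fun_prop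
    exact ((Kd_cont h (k := k)).comp h1).const_smul (u x)
  have hm : ∀ y : E k, AEStronglyMeasurable (fun x => u x • Kd h x y) ν :=
    fun y => (hu.smul (Kd_cont1 h y)).aestronglyMeasurable
  have hn : ∀ y : E k, ∀ᵐ x ∂ν, ‖u x • Kd h x y‖ ≤ ‖u x‖ * ((1 + h) / h) :=
    fun y => Filter.Eventually.of_forall fun x => by
      rw [norm_smul]
      exact mul_le_mul_of_nonneg_left (Kd_norm hh x y) (norm_nonneg _)
  exact continuous_of_dominated hm hn ((int_cont hν hu).norm.mul_const _)
    (Filter.Eventually.of_forall hc)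

theorem nm_apply (hν : PB B ν) (hh : 0 < h) {u : E k → ℝ} (hu : Continuous u) (y w : E k) :
    h * fderiv ℝ (nm h ν u) y w =
      nm h ν (fun x => u x * ⟪x, w⟫_ℝ) y - ⟪y, w⟫_ℝ * nm h ν u y := by
  have := hν.prob
  have hi : Integrable (fun x => u x • Kd h x y) ν := by
    refine Integrable.mono' ((int_cont hν hu).norm.mul_const ((1 + h) / h))
      (hu.smul (Kd_cont1 h y)).aestronglyMeasurable (Filter.Eventually.of_forall fun x => ?_)
    rw [norm_smul]
    exact mul_le_mul_of_nonneg_left (Kd_norm hh x y) (norm_nonneg _)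
  rw [(nm_deriv hν hh hu y).fderiv, ContinuousLinearMap.integral_apply hi, ← integral_const_mul]
  have hw : Continuous fun x : E k => ⟪x, w⟫_ℝ := by fun_prop
  have e : (fun x => h * (u x • Kd h x y) w) = fun x =>
      u x * ⟪x, w⟫_ℝ * Kn h x y - ⟪y, w⟫_ℝ * (u x * Kn h x y) := by
    funext x
    show h * (u x * (Kn h x y / h * ⟪x - y, w⟫_ℝ)) = _
    rw [inner_sub_left]
    field_simp
  have i1 : Integrable (fun x => u x * ⟪x, w⟫_ℝ * Kn h x y) ν := int_mul hν (hu.mul hw) y
  rw [e, integral_sub i1 ((int_mul hν hu y).const_mul _), integral_const_mul]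
  rfl

theorem zn_nm (y : E k) : zn h ν y = nm h ν (fun _ => 1) y := by
  rw [zn_eq]
  unfold nm
  simp

theorem po_c1 (hν : PB B ν) (hh : 0 < h) {u : E k → ℝ} (hu : Continuous u) :
    ContDiff ℝ 1 (po h ν u) := by
  have := hν.prob
  have h1 : ContDiff ℝ 1 (zn h ν) := by
    have e : zn h ν = nm h ν (fun _ => 1) := funext fun y => zn_nm y
    rw [e]
    exact nm_c1 hν hh continuous_const
  exact (nm_c1 hν hh hu).div h1 fun y => (zn_pos hh y).ne'

/-- the derivative of the posterior mean -/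
theorem po_apply (hν : PB B ν) (hh : 0 < h) {u : E k → ℝ} (hu : Continuous u) (y w : E k) :
    h * fderiv ℝ (po h ν u) y w = cv h ν u (fun x => ⟪x, w⟫_ℝ) y := by
  have := hν.prob
  have hz : zn h ν y ≠ 0 := (zn_pos hh y).ne'
  have hw : Continuous fun x : E k => ⟪x, w⟫_ℝ := by fun_prop
  have hd1 : HasFDerivAt (po h ν u) (fderiv ℝ (po h ν u) y) y :=
    ((po_c1 hν hh hu).differentiable (by norm_num) y).hasFDerivAt
  have e0 : zn h ν = nm h ν (fun _ => 1) := funext fun y => zn_nm y
  have hd2 : HasFDerivAt (zn h ν) (fderiv ℝ (nm h ν fun _ => 1) y) y := by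
    rw [e0]
    exact ((nm_c1 hν hh continuous_const).differentiable (by norm_num) y).hasFDerivAt
  have e1 : (fun z => po h ν u z * zn h ν z) = nm h ν u := by
    funext z
    rw [po_eq]
    exact div_mul_cancel₀ _ (zn_pos hh z).ne'
  have h1 := (hd1.mul hd2).fderiv
  have h1' : fderiv ℝ (nm h ν u) y = po h ν u y • fderiv ℝ (nm h ν fun _ => 1) y +
      zn h ν y • fderiv ℝ (po h ν u) y := by
    rw [← h1, ← e1]
    rfl
  have h2 := congrArg (fun L : E k →L[ℝ] ℝ => h * L w) h1'
  simp only [add_apply, smul_apply, smul_eq_mul] at h2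
  have h3 := nm_apply hν hh hu y w
  have h4 := nm_apply hν hh (u := fun _ => (1 : ℝ)) continuous_const y w
  simp only [one_mul] at h4
  rw [← zn_nm] at h4
  have h5 : nm h ν u y = po h ν u y * zn h ν y := by
    rw [po_eq]
    exact (div_mul_cancel₀ _ hz).symm
  have h6 : nm h ν (fun x => ⟪x, w⟫_ℝ) y = po h ν (fun x => ⟪x, w⟫_ℝ) y * zn h ν y := by
    rw [po_eq]
    exact (div_mul_cancel₀ _ hz).symm
  have h7 : nm h ν (fun x => u x * ⟪x, w⟫_ℝ) y =
      po h ν (fun x => u x * ⟪x, w⟫_ℝ) y * zn h ν y := by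
    rw [po_eq]
    exact (div_mul_cancel₀ _ hz).symm
  have h8 : (h * fderiv ℝ (po h ν u) y w) * zn h ν y =
      cv h ν u (fun x => ⟪x, w⟫_ℝ) y * zn h ν y := by
    unfold cv
    rw [h3, h5, h7] at h2
    rw [h6] at h4
    linear_combination (-1 : ℝ) * h2 - po h ν u y * h4
  exact mul_right_cancel₀ hz h8

/-! ### Brascamp-Lieb -/

theorem lci_pb (hν : LCI ν) : ∃ B : ℝ, PB B ν := by
  obtain ⟨n, C, T, b, _, hK, hpos, rfl⟩ := hν
  have hT : Continuous fun x : E n => b + T x :=
    continuous_const.add T.continuous_of_finiteDimensional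
  obtain ⟨B, hB⟩ := hK.exists_bound_of_continuousOn hT.continuousOn
  have hp : IsProbabilityMeasure (un C) := un_prob hpos.ne' hK.measure_lt_top.ne
  refine ⟨B, ⟨Measure.isProbabilityMeasure_map hT.aemeasurable, ?_⟩⟩
  rw [ae_map_iff hT.aemeasurable (measurableSet_le measurable_norm measurable_const)]
  refine Measure.ae_smul_measure ?_ _
  filter_upwards [ae_restrict_mem hK.measurableSet] with x hx
  exact hB x hx

theorem bl (hb : S_BLI) (hν : LCI ν) (hh : 0 < h) {φ : E k → ℝ} (hφ : ContDiff ℝ 1 φ) (y : E k) :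
    ∃ c : ℝ, ∫ x, (φ x - c) ^ 2 * Kn h x y ∂ν ≤ h * ∫ x, ‖fderiv ℝ φ x‖ ^ 2 * Kn h x y ∂ν := by
  obtain ⟨n, C, T, b, hC, hK, hpos, rfl⟩ := hν
  have hT : Continuous fun x : E n => b + T x :=
    continuous_const.add T.continuous_of_finiteDimensional
  obtain ⟨c, hc⟩ := hb n k C T (y - b) h (fun z => φ (b + z)) hC hK hh
    (hφ.comp (contDiff_const.add contDiff_id))
  refine ⟨c, ?_⟩
  have hfd : Continuous fun x => ‖fderiv ℝ φ x‖ ^ 2 :=
    ((hφ.continuous_fderiv (by norm_num)).norm).pow 2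
  have k1 : Continuous fun x => (φ x - c) ^ 2 * Kn h x y :=
    ((hφ.continuous.sub continuous_const).pow 2).mul (Kn_cont1 h y)
  have k2 : Continuous fun x => ‖fderiv ℝ φ x‖ ^ 2 * Kn h x y := hfd.mul (Kn_cont1 h y)
  rw [integral_map hT.aemeasurable k1.aestronglyMeasurable,
    integral_map hT.aemeasurable k2.aestronglyMeasurable]
  unfold un
  rw [integral_smul_measure, integral_smul_measure, smul_eq_mul, smul_eq_mul]
  have hKn : ∀ x : E n, Kn h (b + T x) y = Real.exp (-(‖T x - (y - b)‖ ^ 2 / (2 * h))) := by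
    intro x
    unfold Kn
    have : b + T x - y = T x - (y - b) := by abel
    rw [this]
  have e1 : ∫ x in C, (φ (b + T x) - c) ^ 2 * Kn h (b + T x) y =
      ∫ x in C, (φ (b + T x) - c) ^ 2 * Real.exp (-(‖T x - (y - b)‖ ^ 2 / (2 * h))) := by
    simp_rw [hKn]
  have e2 : ∫ x in C, ‖fderiv ℝ φ (b + T x)‖ ^ 2 * Kn h (b + T x) y =
      ∫ x in C, ‖fderiv ℝ (fun z => φ (b + z)) (T x)‖ ^ 2 *
        Real.exp (-(‖T x - (y - b)‖ ^ 2 / (2 * h))) := by
    simp_rw [hKn, fderiv_comp_add_left]
  rw [e1, e2]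
  have h3 : 0 ≤ ((volume C)⁻¹).toReal := ENNReal.toReal_nonneg
  calc ((volume C)⁻¹).toReal * ∫ x in C, (φ (b + T x) - c) ^ 2 *
        Real.exp (-(‖T x - (y - b)‖ ^ 2 / (2 * h)))
      ≤ ((volume C)⁻¹).toReal * (h * ∫ x in C, ‖fderiv ℝ (fun z => φ (b + z)) (T x)‖ ^ 2 *
        Real.exp (-(‖T x - (y - b)‖ ^ 2 / (2 * h)))) := mul_le_mul_of_nonneg_left hc h3
    _ = _ := by ring

/-- the variance bound -/
theorem vr_bl (hb : S_BLI) (hν : LCI ν) (hh : 0 < h) {φ : E k → ℝ} (hφ : ContDiff ℝ 1 φ)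
    (y : E k) : vr h ν φ y ≤ h * po h ν (fun x => ‖fderiv ℝ φ x‖ ^ 2) y := by
  obtain ⟨B, hB⟩ := lci_pb hν
  have := hB.prob
  have hz : 0 < zn h ν y := zn_pos hh y
  obtain ⟨c, hc⟩ := bl hb hν hh hφ y
  have h1 := (vr_le hB hh hφ.continuous c y).trans hc
  rw [po_eq, ← mul_div_assoc, le_div_iff₀ hz]
  exact h1

theorem t_PST (hb : S_BLI) : S_PST := by
  intro k ν h a C0 f hν hh ha hf hfa
  obtain ⟨B, hB⟩ := lci_pb hν
  have := hB.prob
  have habs : ∀ (u : E k → ℝ) (C : ℝ), Continuous u → (∀ x, |u x| ≤ C) → ∀ y,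
      |po h ν u y| ≤ C := by
    intro u C hu hub y
    have hz : 0 < zn h ν y := zn_pos hh y
    rw [po_eq, abs_div, abs_of_pos hz, div_le_iff₀ hz]
    unfold nm
    refine (abs_integral_le_integral_abs).trans ?_
    rw [zn_eq, ← integral_const_mul]
    refine integral_mono (int_mul hB hu y).abs ((Kn_int hh y).const_mul C) fun x => ?_
    show |u x * Kn h x y| ≤ C * Kn h x y
    rw [abs_mul, abs_of_pos (Kn_pos h x y)]
    exact mul_le_mul_of_nonneg_right (hub x) (Kn_pos h x y).le
  have hfc : Continuous f := hf.c1.continuous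
  refine ⟨po_c1 hB hh hfc, habs f a hfc hfa, fun y => ?_, fun y => vr_bl hb hν hh hf.c1 y,
    fun u hu hub => ⟨(po_c1 hB hh hu).continuous, ?_⟩⟩
  · have hV : 0 ≤ vr h ν f y := vr_nonneg hB hh hfc y
    have hsq : ∀ w, (fderiv ℝ (po h ν f) y w) ^ 2 ≤ vr h ν f y / h * ‖w‖ ^ 2 := by
      intro w
      have hw : Continuous fun x : E k => ⟪x, w⟫_ℝ := by fun_prop
      have h1 := cs hB hh hfc hw y
      rw [← po_apply hB hh hfc y w] at h1
      have hz : 0 < zn h ν y := zn_pos hh y
      have h2 : vr h ν (fun x => ⟪x, w⟫_ℝ) y ≤ h * ‖w‖ ^ 2 := by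
        have hφ : ContDiff ℝ 1 fun x : E k => ⟪x, w⟫_ℝ := contDiff_id.inner ℝ contDiff_const
        have h3 := vr_bl hb hν hh hφ y
        have h4 : ∀ x, ‖fderiv ℝ (fun x : E k => ⟪x, w⟫_ℝ) x‖ = ‖w‖ := by
          intro x
          have e : (fun x : E k => ⟪x, w⟫_ℝ) = fun x => innerSL ℝ w x := by
            funext x
            rw [innerSL_apply_apply, real_inner_comm]
          rw [e, ContinuousLinearMap.fderiv, innerSL_apply_norm]
        have h5 : po h ν (fun x => ‖fderiv ℝ (fun x : E k => ⟪x, w⟫_ℝ) x‖ ^ 2) y = ‖w‖ ^ 2 := by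
          simp_rw [h4]
          rw [po_eq, div_eq_iff hz.ne']
          unfold nm
          rw [integral_const_mul, ← zn_eq]
        rw [h5] at h3
        exact h3
      have h6 : (h * fderiv ℝ (po h ν f) y w) ^ 2 ≤ vr h ν f y * (h * ‖w‖ ^ 2) :=
        h1.trans (mul_le_mul_of_nonneg_left h2 hV)
      rw [div_mul_eq_mul_div, le_div_iff₀ hh]
      have h7 : (fderiv ℝ (po h ν f) y w) ^ 2 * h * h ≤ vr h ν f y * ‖w‖ ^ 2 * h := by
        nlinarith
      exact le_of_mul_le_mul_right h7 hh
    have hop : ‖fderiv ℝ (po h ν f) y‖ ≤ Real.sqrt (vr h ν f y / h) := by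
      refine ContinuousLinearMap.opNorm_le_bound _ (Real.sqrt_nonneg _) fun w => ?_
      rw [Real.norm_eq_abs]
      apply abs_le_of_sq_le_sq _ (by positivity)
      rw [mul_pow, Real.sq_sqrt (div_nonneg hV hh.le)]
      exact hsq w
    have h8 : ‖fderiv ℝ (po h ν f) y‖ ^ 2 ≤ vr h ν f y / h := by
      calc ‖fderiv ℝ (po h ν f) y‖ ^ 2 ≤ Real.sqrt (vr h ν f y / h) ^ 2 :=
            pow_le_pow_left₀ (norm_nonneg _) hop 2
        _ = vr h ν f y / h := Real.sq_sqrt (div_nonneg hV hh.le)
    rw [le_div_iff₀ hh] at h8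
    show h * ‖fderiv ℝ (po h ν f) y‖ ^ 2 ≤ vr h ν f y
    linarith
  · obtain ⟨C, hC⟩ := hub
    obtain ⟨B', hB'0, hB'⟩ : ∃ B' : ℝ, 0 ≤ B' ∧ PB B' ν := ⟨max B 0, le_max_right _ _, hB.prob, by
      filter_upwards [hB.bdd] with x hx
      exact hx.trans (le_max_left _ _)⟩
    have hC1 : 0 < max C 1 := lt_of_lt_of_le one_pos (le_max_right _ _)
    obtain ⟨_, _, r3⟩ := rep k h B' (max C 1) ν (po h ν u) hh hB' (po_c1 hB hh hu).continuous
      (fun y => by
        have h1 := (habs u C hu hC y).trans (le_max_left C 1)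
        have h2 := norm_nonneg y
        nlinarith)
    rw [r3]
    have e : ∀ y, po h ν u y * zn h ν y = nm h ν u y := fun y => by
      rw [po_eq]
      exact div_mul_cancel₀ _ (zn_pos hh y).ne'
    simp_rw [e]
    obtain ⟨_, _, l3⟩ := Pool.Agent.R755.KF.L2aux.lemA zn_ok hh hB'0 hB'
      (u := fun x => u x / max C 1) (hu.div_const _) (fun x => by
        rw [abs_div, abs_of_pos hC1, div_le_one hC1]
        exact (hC x).trans (le_max_left _ _))
    have e2 : ∀ y, Pool.Agent.R755.KF.L2aux.nu h ν (fun x => u x / max C 1) y =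
        (max C 1)⁻¹ * nm h ν u y := by
      intro y
      unfold Pool.Agent.R755.KF.L2aux.nu nm
      rw [← integral_const_mul]
      refine integral_congr_ae (Filter.Eventually.of_forall fun x => ?_)
      show u x / max C 1 * Kn h x y = (max C 1)⁻¹ * (u x * Kn h x y)
      rw [div_eq_mul_inv]
      ring
    simp_rw [e2] at l3
    rw [integral_const_mul, integral_div] at l3
    have hgc : 0 < gc (Fin k) h := by
      obtain ⟨z1, z2, z3, _, _, z6, z7⟩ := zn_ok k h B' ν hh hB'0 hB'
      rw [← z7]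
      exact integral_pos_of_integrable_nonneg_nonzero (x := 0) z1.continuous z6
        (fun y => (z2 y).le) (z2 0).ne'
    have h9 : ∫ y, nm h ν u y = (∫ x, u x ∂ν) * gc (Fin k) h := by
      field_simp at l3
      linarith
    rw [h9]
    field_simp

end Pool.Agent.N692.KM
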